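import Pool.Agent.helper55.FLD.Spec

namespace Pool.Agent.FLD

open Matrix Topology Filter

theorem BD : BD_stmt := by
  intro p hp E _ _ _ _ _ _ _ T T₀ hT h0 hadd hsm hsub
  obtain ⟨b, hb, hspan, hli⟩ := exists_linearIndependent ℚ_[p] T₀
  have : Finite b := hli.finite
  have : Fintype b := Fintype.ofFinite b
  let Φ : (b → ℚ_[p]) →ₗ[ℚ_[p]] E := Fintype.linearCombination ℚ_[p] (fun i : b => (i : E))
  have hΦ : ∀ c, Φ c = ∑ i, c i • (i : E) := fun c => by
    simp [Φ, Fintype.linearCombination_apply]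
  have hinj : LinearMap.ker Φ = ⊥ := by
    rw [LinearMap.ker_eq_bot']
    intro c hc
    rw [hΦ] at hc
    funext i
    exact Fintype.linearIndependent_iff.mp hli c hc i
  obtain ⟨g, hg⟩ := LinearMap.exists_leftInverse_of_injective Φ hinj
  have hgc : Continuous g := LinearMap.continuous_of_finiteDimensional g
  have hrange : ∀ x ∈ T, ∃ c, Φ c = x := by
    intro x hx
    have h1 : x ∈ Submodule.span ℚ_[p] b := by
      rw [hspan]; exact hsub hx
    have h2 : x ∈ LinearMap.range Φ := by
      have : LinearMap.range Φ = Submodule.span ℚ_[p] (Set.range fun i : b => (i : E)) :=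
        Fintype.range_linearCombination ℚ_[p] (fun i : b => (i : E))
      rw [this, Subtype.range_coe]
      exact h1
    exact h2
  obtain ⟨C, hC⟩ := (hT.image hgc).isBounded.exists_norm_le
  have hp1 : (1 : ℝ) < p := by exact_mod_cast hp.out.one_lt
  obtain ⟨k, hk⟩ := pow_unbounded_of_one_lt C hp1
  refine ⟨k, fun x hx => ?_⟩
  obtain ⟨c, rfl⟩ := hrange x hx
  have hgx : g (Φ c) = c := by
    have := congrArg (fun f => f c) hg
    simpa using this
  have hcC : ‖c‖ ≤ C := by
    have := hC (g (Φ c)) ⟨Φ c, hx, rfl⟩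
    rwa [hgx] at this
  have hsum : ∀ (s : Finset b) (d : b → ℚ_[p]), (∀ i, ‖d i‖ ≤ 1) → ∑ i ∈ s, d i • (i : E) ∈ T₀ := by
    classical
    intro s d hd
    induction s using Finset.induction_on with
    | empty => simpa using h0
    | insert a s ha ih =>
      rw [Finset.sum_insert ha]
      exact hadd _ (hsm _ (hd a) _ (hb a.2)) _ ih
  rw [hΦ, Finset.smul_sum]
  simp only [smul_smul]
  refine hsum _ _ fun i => ?_
  rw [norm_mul, norm_pow, Padic.norm_p]
  have h3 : ‖c i‖ ≤ C := (norm_le_pi_norm c i).trans hcC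
  have hpk : (0 : ℝ) < (p : ℝ) ^ k := by positivity
  rw [inv_pow, inv_mul_le_iff₀ hpk, mul_one]
  exact h3.trans hk.le

end Pool.Agent.FLD
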